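import Pool.Agent.Helper72.Cyc.Close

/-!
# The cycle graph: girth, number of edges, number of cycles
-/

set_option linter.unusedSectionVars false

namespace Pool.Agent.Helper33.EB

open SimpleGraph Finset Pool.Agent.Helper72.Cyc

lemma noShort_cycleGraph (n : ℕ) : NoShort (cycleGraph (n + 3)) (n + 3) := by
  intro m f hf hadj
  have hcl : ∀ i, ∃ j, f j = f i + 1 := by
    intro i
    have h1 := hadj i
    have h2 := hadj (i - 1)
    rw [sub_add_cancel] at h2
    rw [cyc_adj_iff] at h1 h2
    rcases h1 with h1 | h1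
    · exact ⟨i + 1, h1.symm⟩
    · rcases h2 with h2 | h2
      · exfalso
        have h3 : f (i + 1) = f (i - 1) := add_right_cancel (h1.trans h2.symm)
        exact fin_add_sub_ne i (hf h3)
      · exact ⟨i - 1, h2.symm⟩
  have hsurj : Function.Surjective f := by
    have h1 : ∀ x : Fin (n + 3), ∃ j, f j = f 0 + x := by
      intro x
      induction x using Fin.induction with
      | zero => exact ⟨0, by rw [add_zero]⟩
      | succ x ih =>
        obtain ⟨j, hj⟩ := ih
        obtain ⟨l, hl⟩ := hcl j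
        refine ⟨l, ?_⟩
        rw [hl, hj, ← Fin.coeSucc_eq_succ, add_assoc]
    intro v
    obtain ⟨j, hj⟩ := h1 (v - f 0)
    exact ⟨j, by rw [hj]; abel⟩
  have := Fintype.card_le_of_surjective f hsurj
  rwa [Fintype.card_fin, Fintype.card_fin] at this

lemma le_maxEdges_self {n g : ℕ} (hg : 3 ≤ g) (hgn : g ≤ n) : n ≤ maxEdges n g := by
  classical
  obtain ⟨m, rfl⟩ : ∃ m, n = m + 3 := ⟨n - 3, by omega⟩
  have h1 : NoShort (cycleGraph (m + 3)) g := fun k f hf hadj =>
    hgn.trans (noShort_cycleGraph m k f hf hadj)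
  have h2 := card_edges_le_maxEdges' (n := m + 3) h1 (by rw [Fintype.card_fin])
  have h3 := (cycleGraph (m + 3)).sum_degrees_eq_twice_card_edges
  have h4 : ∀ v : Fin (m + 3), (cycleGraph (m + 3)).degree v = 2 := by
    intro v
    convert cycleGraph_degree_three_le (n := m) (v := v)
  rw [Finset.sum_congr rfl (fun v _ => h4 v), Finset.sum_const, Finset.card_univ,
    Fintype.card_fin, smul_eq_mul] at h3
  have h5 : (cycleGraph (m + 3)).edgeFinset.card = m + 3 := by omega
  exact h5.symm.le.trans h2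

lemma one_le_maxCycles {n g : ℕ} (hg : 3 ≤ g) (hgn : g ≤ n) : 1 ≤ maxCycles n g := by
  classical
  obtain ⟨m, rfl⟩ : ∃ m, n = m + 3 := ⟨n - 3, by omega⟩
  have h1 : NoShort (cycleGraph (m + 3)) g := fun k f hf hadj =>
    hgn.trans (noShort_cycleGraph m k f hf hadj)
  have h2 := numCycles_le_maxCycles (n := m + 3) h1 (by rw [Fintype.card_fin])
  refine le_trans ?_ h2
  unfold numCycles
  have h3 : 0 < (cycleGraph (m + 3)).copyCount (cycleGraph (m + 3)) :=
    copyCount_pos.2 ⟨Copy.id _⟩
  have h4 := Finset.single_le_sum (f := fun k => (cycleGraph (m + 3)).copyCount (cycleGraph k))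
    (s := Finset.Icc 3 (Fintype.card (Fin (m + 3)))) (fun _ _ => Nat.zero_le _)
    (show m + 3 ∈ _ by rw [Finset.mem_Icc, Fintype.card_fin]; omega)
  exact le_trans h3 h4

end Pool.Agent.Helper33.EB
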