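import Pool.Agent.Helper72.Cyc.Reps
import Pool.Agent.Helper72.Cyc.Moore

/-!
# Permutations along the edges without short cycles: encoding with `k` free steps per cycle
-/

set_option linter.unusedSectionVars false

namespace Pool.Agent.Helper33.EB

open SimpleGraph Finset Pool.Agent.Helper72.Cyc

section

variable {W : Type} [Fintype W]

open scoped Classical in
/-- The vertices on cycles of length at most two. -/
noncomputable def Z2 (σ : Equiv.Perm W) : Finset W := {v | σ (σ v) = v}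

lemma mem_Z2 {σ : Equiv.Perm W} {v : W} : v ∈ Z2 σ ↔ σ (σ v) = v := by
  simp only [Z2, Finset.mem_filter, Finset.mem_univ, true_and]

open scoped Classical in
/-- The representatives of the longer cycles. -/
noncomputable def longReps (σ : Equiv.Perm W) : Finset W := {r | r ∈ reps σ ∧ r ∉ Z2 σ}

lemma mem_longReps {σ : Equiv.Perm W} {r : W} : r ∈ longReps σ ↔ r ∈ reps σ ∧ r ∉ Z2 σ := by
  simp only [longReps, Finset.mem_filter, Finset.mem_univ, true_and]

open scoped Classical in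
/-- The last `k` vertices before a representative. -/
noncomputable def Qs (k : ℕ) (σ : Equiv.Perm W) : Finset W :=
  {v | v ∉ Z2 σ ∧ ∃ j, 1 ≤ j ∧ j ≤ k ∧ (σ ^ j) v ∈ reps σ}

lemma mem_Qs {k : ℕ} {σ : Equiv.Perm W} {v : W} :
    v ∈ Qs k σ ↔ v ∉ Z2 σ ∧ ∃ j, 1 ≤ j ∧ j ≤ k ∧ (σ ^ j) v ∈ reps σ := by
  simp only [Qs, Finset.mem_filter, Finset.mem_univ, true_and]

lemma Z2_same {σ : Equiv.Perm W} {v w : W} (h : σ.SameCycle v w) : v ∈ Z2 σ ↔ w ∈ Z2 σ := by
  obtain ⟨i, rfl⟩ := h
  rw [mem_Z2, mem_Z2]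
  have h1 : σ (σ ((σ ^ i) v)) = (σ ^ i) (σ (σ v)) := by
    have h2 : σ * (σ * σ ^ i) = σ ^ i * (σ * σ) := by
      rw [← zpow_one_add, ← zpow_one_add, ← pow_two, ← zpow_natCast, ← zpow_add]
      congr 1
      push_cast
      ring
    have h3 := congrArg (fun π : Equiv.Perm W => π v) h2
    simpa [Equiv.Perm.mul_apply] using h3
  rw [h1]
  exact ((σ ^ i).injective.eq_iff).symm

lemma same_pow (σ : Equiv.Perm W) (v : W) (i : ℕ) : σ.SameCycle v ((σ ^ i) v) :=
  ⟨(i : ℤ), by rw [zpow_natCast]⟩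

lemma pow_add_apply (σ : Equiv.Perm W) (v : W) (i j : ℕ) : (σ ^ (i + j)) v = (σ ^ i) ((σ ^ j) v) := by
  rw [pow_add, Equiv.Perm.mul_apply]

lemma perm_apply_inv (π : Equiv.Perm W) (v : W) : π (π⁻¹ v) = v := π.apply_symm_apply v

lemma pow_succ_apply (σ : Equiv.Perm W) (v : W) (i : ℕ) : (σ ^ (i + 1)) v = σ ((σ ^ i) v) := by
  rw [pow_succ', Equiv.Perm.mul_apply]

/-- No short periods. -/
lemma no_period {H : SimpleGraph W} {g : ℕ} (hH : NoShort H g) {σ : Equiv.Perm W}
    (hσ : σ ∈ EP H) {r : W} (hr : r ∉ Z2 σ) {d : ℕ} (hd : 1 ≤ d) (hdg : d < g) :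
    (σ ^ d) r ≠ r := by
  intro he
  rw [mem_EP] at hσ
  have := nb_repeat hH (u := fun i => (σ ^ i) r) (l := d) (by
    intro i _
    show H.Adj ((σ ^ i) r) ((σ ^ (i + 1)) r)
    rw [pow_succ_apply]
    exact hσ _) (by
    intro i _ h
    have h1 : (σ ^ i) r ∉ Z2 σ := fun h' => hr ((Z2_same (same_pow σ r i)).2 h')
    apply h1
    rw [mem_Z2]
    have h2 : (σ ^ (i + 2)) r = σ (σ ((σ ^ i) r)) := by
      rw [show i + 2 = i + 1 + 1 from rfl, pow_succ_apply, pow_succ_apply]
    rw [← h2]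
    exact h) (i := 0) (j := d) (by omega) le_rfl (by simpa using he.symm)
  omega

/-- The first vertex of `Q` on the orbit of a representative is `k` steps before the end. -/
lemma first_Q {H : SimpleGraph W} {g k : ℕ} (hH : NoShort H g) (hk : 1 ≤ k)
    (hg : 2 * k + 1 ≤ g) {σ : Equiv.Perm W} (hσ : σ ∈ EP H) {r : W} (hr : r ∈ reps σ)
    (hrZ : r ∉ Z2 σ) {i0 : ℕ} (h0 : (σ ^ i0) r ∈ Qs k σ)
    (hmin : ∀ i < i0, (σ ^ i) r ∉ Qs k σ) : (σ ^ k) ((σ ^ i0) r) = r := by
  obtain ⟨hZ, j, hj1, hjk, hj⟩ := mem_Qs.1 h0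
  have hjr : (σ ^ j) ((σ ^ i0) r) = r := by
    have h1 : σ.SameCycle r ((σ ^ j) ((σ ^ i0) r)) :=
      (same_pow σ r i0).trans (same_pow σ _ j)
    exact (reps_uniq hr hj h1).symm
  rcases Nat.lt_or_ge j k with hlt | hge
  · exfalso
    rcases Nat.eq_zero_or_pos i0 with hi | hi
    · rw [hi, pow_zero, Equiv.Perm.one_apply] at hjr
      exact no_period hH hσ hrZ hj1 (by omega) hjr
    · apply hmin (i0 - 1) (by omega)
      rw [mem_Qs]
      refine ⟨fun h' => hrZ ((Z2_same (same_pow σ r _)).2 h'), j + 1, by omega, by omega, ?_⟩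
      rw [← pow_add_apply, show j + 1 + (i0 - 1) = j + i0 by omega, pow_add_apply]
      exact hj
  · rw [show k = j by omega]
    exact hjr

/-- The orbits of a representative of a long cycle agree. -/
lemma orbit_eq {H : SimpleGraph W} {g k : ℕ} (hH : NoShort H g) (hk : 1 ≤ k)
    (hg : 2 * k + 1 ≤ g) {σ τ : Equiv.Perm W} (hσ : σ ∈ EP H) (hτ : τ ∈ EP H)
    (hZ : Z2 σ = Z2 τ) (hR : reps σ = reps τ) (hQ : Qs k σ = Qs k τ)
    (hag : ∀ v, v ∉ Z2 σ → v ∉ Qs k σ → σ v = τ v) {r : W} (hr : r ∈ reps σ)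
    (hrZ : r ∉ Z2 σ) : ∀ i : ℕ, (σ ^ i) r = (τ ^ i) r := by
  classical
  have hex : ∃ i : ℕ, (σ ^ i) r ∈ Qs k σ := by
    have h1 : σ.SameCycle r ((σ ^ k)⁻¹ r) := ⟨-(k : ℤ), by rw [zpow_neg, zpow_natCast]⟩
    obtain ⟨i, -, hi⟩ := h1.exists_pow_eq'
    refine ⟨i, ?_⟩
    rw [hi, mem_Qs]
    refine ⟨fun h' => hrZ ((Z2_same h1).2 h'), k, hk, le_rfl, ?_⟩
    rw [perm_apply_inv]
    exact hr
  have h0 := Nat.find_spec hex
  have hmin := fun i (hi : i < Nat.find hex) => Nat.find_min hex hi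
  set i0 := Nat.find hex with hi0
  have hpow : ∀ j ≤ i0, (τ ^ j) r = (σ ^ j) r := by
    intro j
    induction j with
    | zero => intro _; rfl
    | succ j ih =>
      intro hj
      rw [pow_succ_apply, pow_succ_apply, ih (by omega)]
      exact (hag _ (fun h' => hrZ ((Z2_same (same_pow σ r _)).2 h')) (hmin j (by omega))).symm
  have h1 : (σ ^ k) ((σ ^ i0) r) = r := first_Q hH hk hg hσ hr hrZ h0 hmin
  have h2 : (τ ^ k) ((τ ^ i0) r) = r := by
    apply first_Q hH hk hg hτ (hR ▸ hr) (hZ ▸ hrZ)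
    · rw [hpow i0 le_rfl, ← hQ]; exact h0
    · intro i hi
      rw [hpow i hi.le, ← hQ]; exact hmin i hi
  rw [hpow i0 le_rfl] at h2
  set w := (σ ^ i0) r with hw
  have hwZ : w ∉ Z2 σ := fun h' => hrZ ((Z2_same (same_pow σ r _)).2 h')
  have hNB : ∀ π : Equiv.Perm W, π ∈ EP H → w ∉ Z2 π →
      IsNB H w k (fun j : Fin (k + 1) => (π ^ j.val) w) := by
    intro π hπ hwπ
    refine ⟨rfl, ?_, ?_⟩
    · intro i hi
      show H.Adj ((π ^ i) w) ((π ^ (i + 1)) w)
      rw [pow_succ_apply]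
      exact (mem_EP.1 hπ) _
    · intro i hi h
      have h3 : (π ^ i) w ∉ Z2 π := fun h' => hwπ ((Z2_same (same_pow π w i)).2 h')
      apply h3
      rw [mem_Z2]
      have h4 : (π ^ (i + 2)) w = π (π ((π ^ i) w)) := by
        rw [show i + 2 = i + 1 + 1 from rfl, pow_succ_apply, pow_succ_apply]
      rw [← h4]
      exact h
  have h5 := nb_end_inj hH hg (hNB σ hσ hwZ) (hNB τ hτ (hZ ▸ hwZ)) (by
    show (σ ^ k) w = (τ ^ k) w
    rw [h1, h2])
  have h6 : ∀ j ≤ k, (σ ^ j) w = (τ ^ j) w := by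
    intro j hj
    exact congrFun h5 ⟨j, by omega⟩
  have h7 : ∀ i ≤ i0 + k, (σ ^ i) r = (τ ^ i) r := by
    intro i hi
    by_cases h : i ≤ i0
    · exact (hpow i h).symm
    · have h8 := h6 (i - i0) (by omega)
      rw [show i = (i - i0) + i0 by omega, pow_add_apply, pow_add_apply, hpow i0 le_rfl, ← hw]
      exact h8
  have hP1 : (σ ^ (i0 + k)) r = r := by
    rw [add_comm, pow_add_apply, ← hw]; exact h1
  have hP2 : (τ ^ (i0 + k)) r = r := by
    rw [← h7 _ le_rfl]; exact hP1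
  intro i
  induction i using Nat.strong_induction_on with
  | _ i ih =>
    by_cases h : i ≤ i0 + k
    · exact h7 i h
    · rw [show i = (i - (i0 + k)) + (i0 + k) by omega, pow_add_apply σ, hP1, pow_add_apply τ, hP2]
      exact ih _ (by omega)

lemma two_rep {σ : Equiv.Perm W} {v : W} (hv : v ∈ Z2 σ) (hr : v ∉ reps σ) : σ v ∈ reps σ := by
  obtain ⟨i, -, hi⟩ := (rep_same σ v).symm.exists_pow_eq'
  have h1 : ∀ i : ℕ, (σ ^ i) v = v ∨ (σ ^ i) v = σ v := by
    intro i
    induction i with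
    | zero => left; rfl
    | succ i ih =>
      rw [pow_succ_apply]
      rcases ih with h | h
      · right; rw [h]
      · left; rw [h]; exact mem_Z2.1 hv
  have h2 := rep_mem σ v
  rcases h1 i with h | h
  · rw [hi] at h
    rw [h] at h2
    exact absurd h2 hr
  · rw [hi] at h
    rw [h] at h2
    exact h2

lemma agree_Z2 {σ τ : Equiv.Perm W} (hZ : Z2 σ = Z2 τ)
    (h1 : ∀ v ∈ Z2 σ, v ∈ reps σ → σ v = τ v) : ∀ v ∈ Z2 σ, σ v = τ v := by
  intro v hv
  by_cases hr : v ∈ reps σ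
  · exact h1 v hv hr
  · have h2 := two_rep hv hr
    have h3 : σ v ∈ Z2 σ := by
      rw [mem_Z2, mem_Z2.1 hv]
    have h4 := h1 _ h3 h2
    rw [mem_Z2.1 hv] at h4
    have h5 : σ v ∈ Z2 τ := hZ ▸ h3
    rw [mem_Z2, ← h4] at h5
    exact h5.symm

lemma decode2 {H : SimpleGraph W} {g k : ℕ} (hH : NoShort H g) (hk : 1 ≤ k)
    (hg : 2 * k + 1 ≤ g) {σ τ : Equiv.Perm W} (hσ : σ ∈ EP H) (hτ : τ ∈ EP H)
    (hZ : Z2 σ = Z2 τ) (hR : reps σ = reps τ) (hQ : Qs k σ = Qs k τ)
    (h1 : ∀ v ∈ Z2 σ, v ∈ reps σ → σ v = τ v)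
    (hag : ∀ v, v ∉ Z2 σ → v ∉ Qs k σ → σ v = τ v) : σ = τ := by
  ext v
  by_cases hv : v ∈ Z2 σ
  · exact agree_Z2 hZ h1 v hv
  · obtain ⟨i, -, hi⟩ := (rep_same σ v).exists_pow_eq'
    have hrZ : rep σ v ∉ Z2 σ := fun h' => hv ((Z2_same (rep_same σ v)).1 h')
    have h2 := orbit_eq hH hk hg hσ hτ hZ hR hQ hag (rep_mem σ v) hrZ
    have h3 := h2 (i + 1)
    rw [pow_succ_apply, pow_succ_apply, ← h2 i, hi] at h3
    exact h3

open scoped Classical in
lemma card_Qs {H : SimpleGraph W} {g k : ℕ} (hH : NoShort H g)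
    (hg : 2 * k + 1 ≤ g) {σ : Equiv.Perm W} (hσ : σ ∈ EP H) :
    (longReps σ).card * k ≤ (Qs k σ).card := by
  have h1 : ((longReps σ) ×ˢ (Finset.Icc 1 k)).card ≤ (Qs k σ).card := by
    apply Finset.card_le_card_of_injOn (fun p : W × ℕ => (σ ^ p.2)⁻¹ p.1)
    · rintro ⟨r, j⟩ hp
      rw [Finset.mem_coe, Finset.mem_product, mem_longReps, Finset.mem_Icc] at hp
      rw [Finset.mem_coe, mem_Qs]
      obtain ⟨⟨hr, hrZ⟩, hj1, hjk⟩ := hp
      have hsame : σ.SameCycle r ((σ ^ j)⁻¹ r) := ⟨-(j : ℤ), by rw [zpow_neg, zpow_natCast]⟩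
      refine ⟨fun h' => hrZ ((Z2_same hsame).2 h'), j, hj1, hjk, ?_⟩
      simp only
      rw [perm_apply_inv]
      exact hr
    · rintro ⟨r, j⟩ hp ⟨r', j'⟩ hp' he
      rw [Finset.mem_coe, Finset.mem_product, mem_longReps, Finset.mem_Icc] at hp hp'
      simp only at he hp hp'
      set v := (σ ^ j)⁻¹ r with hv
      have e1 : (σ ^ j) v = r := by rw [hv, perm_apply_inv]
      have e2 : (σ ^ j') v = r' := by rw [he, perm_apply_inv]
      have hrr : r = r' := by
        apply reps_uniq hp.1.1 hp'.1.1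
        rw [← e1, ← e2]
        exact (same_pow σ v j).symm.trans (same_pow σ v j')
      subst hrr
      have hne : ∀ a b : ℕ, a < b → b ≤ k → (σ ^ a) v = r → (σ ^ b) v = r → False := by
        intro a b hab hbk ha hb
        have h3 : (σ ^ (b - a)) r = r := by
          rw [← ha, ← pow_add_apply, show b - a + a = b by omega, hb, ha]
        exact no_period hH hσ hp.1.2 (by omega) (by omega) h3
      have hjj : j = j' := by
        rcases lt_trichotomy j j' with h | h | h
        · exact (hne j j' h hp'.2.2 e1 e2).elim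
        · exact h
        · exact (hne j' j h hp.2.2 e2 e1).elim
      rw [hjj]
  rw [Finset.card_product, Nat.card_Icc] at h1
  simpa using h1

open scoped Classical in
lemma card_le_of_free (H : SimpleGraph W) {D : ℕ} (hD : ∀ v, H.degree v ≤ D) (Fr : Finset W)
    (F : Finset (Equiv.Perm W)) (hF : ∀ σ ∈ F, σ ∈ EP H)
    (hinj : ∀ σ ∈ F, ∀ τ ∈ F, (∀ v ∈ Fr, σ v = τ v) → σ = τ) : F.card ≤ D ^ Fr.card := by
  have h1 : F.card ≤
      (Fintype.piFinset (fun v => if v ∈ Fr then H.neighborFinset v else {v})).card := by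
    apply Finset.card_le_card_of_injOn (fun σ v => if v ∈ Fr then σ v else v)
    · intro σ hσ
      rw [Finset.mem_coe] at hσ
      rw [Finset.mem_coe, Fintype.mem_piFinset]
      intro v
      simp only
      by_cases hv : v ∈ Fr
      · rw [if_pos hv, if_pos hv, mem_neighborFinset]
        exact mem_EP.1 (hF σ hσ) v
      · rw [if_neg hv, if_neg hv, Finset.mem_singleton]
    · intro σ hσ τ hτ hst
      rw [Finset.mem_coe] at hσ hτ
      apply hinj σ hσ τ hτ
      intro v hv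
      have := congrFun hst v
      simp only [if_pos hv] at this
      exact this
  refine h1.trans ?_
  rw [Fintype.card_piFinset]
  have h2 : ∀ v ∈ (Finset.univ : Finset W),
      (if v ∈ Fr then H.neighborFinset v else ({v} : Finset W)).card ≤ if v ∈ Fr then D else 1 := by
    intro v _
    by_cases hv : v ∈ Fr
    · rw [if_pos hv, if_pos hv, card_neighborFinset_eq_degree]; exact hD v
    · rw [if_neg hv, if_neg hv, Finset.card_singleton]
  refine (Finset.prod_le_prod' h2).trans ?_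
  rw [Finset.prod_ite, Finset.prod_const_one, mul_one, Finset.prod_const]
  have h3 : (Finset.univ.filter (fun v => v ∈ Fr)) = Fr := by ext v; simp
  rw [h3]

open scoped Classical in
lemma card_many_reps_mul (H : SimpleGraph W) {D t : ℕ} (hD1 : 1 ≤ D) (hD : ∀ v, H.degree v ≤ D) :
    ((EP H).filter (fun σ => t < (reps σ).card)).card * D ^ t ≤
      4 ^ Fintype.card W * D ^ Fintype.card W := by
  by_cases ht : t ≤ Fintype.card W
  · have h1 := card_many_reps H hD1 hD ht
    calc ((EP H).filter (fun σ => t < (reps σ).card)).card * D ^ t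
        ≤ (4 ^ Fintype.card W * D ^ (Fintype.card W - t)) * D ^ t := Nat.mul_le_mul_right _ h1
      _ = 4 ^ Fintype.card W * D ^ Fintype.card W := by
          rw [mul_assoc, ← pow_add, Nat.sub_add_cancel ht]
  · have h1 : (EP H).filter (fun σ => t < (reps σ).card) = ∅ := by
      apply Finset.filter_eq_empty_iff.2
      intro σ _ h
      have := Finset.card_le_univ (reps σ)
      omega
    rw [h1]; simp

open scoped Classical in
lemma card_long (H : SimpleGraph W) {g k D t t1 : ℕ} (hH : NoShort H g) (hk : 1 ≤ k)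
    (hg : 2 * k + 1 ≤ g) (hD1 : 1 ≤ D) (hD : ∀ v, H.degree v ≤ D) :
    ((EP H).filter (fun σ => (reps σ).card ≤ t1 ∧ t < (longReps σ).card)).card *
        D ^ (k * (t + 1)) ≤ 8 ^ Fintype.card W * D ^ (t1 + Fintype.card W) := by
  set S := (EP H).filter (fun σ => (reps σ).card ≤ t1 ∧ t < (longReps σ).card) with hS
  let key : Equiv.Perm W → Finset W × Finset W × Finset W :=
    fun σ => (Z2 σ, reps σ, Qs k σ)
  have hfib : ∀ b ∈ (Finset.univ : Finset (Finset W × Finset W × Finset W)),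
      (S.filter (fun σ => key σ = b)).card * D ^ (k * (t + 1)) ≤ D ^ (t1 + Fintype.card W) := by
    rintro ⟨Z, R, Q⟩ -
    by_cases hne : (S.filter (fun σ => key σ = (Z, R, Q))).Nonempty
    · obtain ⟨σ0, h0⟩ := hne
      rw [Finset.mem_filter, hS, Finset.mem_filter, Prod.mk.injEq, Prod.mk.injEq] at h0
      obtain ⟨⟨h01, h02, h03⟩, h04, h05, h06⟩ := h0
      have hQ : k * (t + 1) ≤ Q.card := by
        have h1 := card_Qs hH hg h01
        rw [h06] at h1
        refine le_trans ?_ h1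
        rw [mul_comm]
        exact Nat.mul_le_mul_right _ h03
      have hR : (Z ∩ R).card ≤ t1 := by
        refine (Finset.card_le_card Finset.inter_subset_right).trans ?_
        rw [← h05]; exact h02
      have hUQ : Q.card ≤ (Z ∪ Q).card := Finset.card_le_card Finset.subset_union_right
      have h1 := card_le_of_free H hD ((Z ∩ R) ∪ (Z ∪ Q)ᶜ)
        (S.filter (fun σ => key σ = (Z, R, Q))) (by
          intro σ hσ
          rw [Finset.mem_filter, hS, Finset.mem_filter] at hσ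
          exact hσ.1.1) (by
          intro σ hσ τ hτ hst
          rw [Finset.mem_filter, hS, Finset.mem_filter, Prod.mk.injEq, Prod.mk.injEq] at hσ hτ
          apply decode2 hH hk hg hσ.1.1 hτ.1.1 (hσ.2.1.trans hτ.2.1.symm)
            (hσ.2.2.1.trans hτ.2.2.1.symm) (hσ.2.2.2.trans hτ.2.2.2.symm)
          · intro v hv hvr
            apply hst
            rw [Finset.mem_union, Finset.mem_inter]
            left
            rw [← hσ.2.1, ← hσ.2.2.1]
            exact ⟨hv, hvr⟩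
          · intro v hv hvq
            apply hst
            rw [Finset.mem_union, Finset.mem_compl, Finset.mem_union]
            right
            rw [← hσ.2.1, ← hσ.2.2.2]
            intro h
            rcases h with h | h
            · exact hv h
            · exact hvq h)
      have h2 : ((Z ∩ R) ∪ (Z ∪ Q)ᶜ).card + k * (t + 1) ≤ t1 + Fintype.card W := by
        have h3 := Finset.card_union_le (Z ∩ R) ((Z ∪ Q)ᶜ)
        have h4 := Finset.card_add_card_compl (Z ∪ Q)
        omega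
      calc (S.filter (fun σ => key σ = (Z, R, Q))).card * D ^ (k * (t + 1))
          ≤ D ^ ((Z ∩ R) ∪ (Z ∪ Q)ᶜ).card * D ^ (k * (t + 1)) := Nat.mul_le_mul_right _ h1
        _ = D ^ (((Z ∩ R) ∪ (Z ∪ Q)ᶜ).card + k * (t + 1)) := by rw [pow_add]
        _ ≤ D ^ (t1 + Fintype.card W) := Nat.pow_le_pow_right hD1 h2
    · rw [Finset.not_nonempty_iff_eq_empty] at hne
      rw [hne]; simp
  have h1 := Finset.card_eq_sum_card_fiberwise (f := key) (s := S)
    (t := (Finset.univ : Finset (Finset W × Finset W × Finset W)))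
    (fun σ _ => Finset.mem_coe.2 (Finset.mem_univ (key σ)))
  rw [h1, Finset.sum_mul]
  refine (Finset.sum_le_sum hfib).trans ?_
  rw [Finset.sum_const, Finset.card_univ, Fintype.card_prod, Fintype.card_prod,
    Fintype.card_finset, smul_eq_mul, ← mul_pow, ← mul_pow]
  norm_num

end

end Pool.Agent.Helper33.EB
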