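import Pool.Agent.Helper33.EB.Encode

/-!
# Pigeonhole over closing patterns and restriction to the long cycles
-/

set_option linter.unusedSectionVars false

namespace Pool.Agent.Helper33.EB

open SimpleGraph Finset Pool.Agent.Helper72.Cyc

section

variable {W : Type} [Fintype W]

lemma clo_of_mem {σ : Equiv.Perm W} {v : W} (h : v ∈ reps σ) : clo σ v = σ.symm v := by
  unfold clo
  rw [if_pos h]

lemma clo_of_not {σ : Equiv.Perm W} {v : W} (h : v ∉ reps σ) : clo σ v = v := by
  unfold clo
  rw [if_neg h]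

/-- The key of a permutation. -/
noncomputable def pkey (σ : Equiv.Perm W) : Σ _ : Finset W × Finset W, W → W :=
  ⟨(Z2 σ, reps σ), clo σ⟩

open scoped Classical in
lemma exists_pattern2 (H : SimpleGraph W) {D t t1 : ℕ} (hD1 : 1 ≤ D)
    (hD : ∀ v, H.degree v ≤ D) :
    ∃ b : Σ _ : Finset W × Finset W, W → W,
      ((EP H).filter (fun σ => (reps σ).card ≤ t1 ∧ ¬ t < (longReps σ).card)).card ≤
        (((EP H).filter (fun σ => ¬ t < (longReps σ).card ∧ pkey σ = b)).card) *
          (4 ^ Fintype.card W * D ^ t1) := by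
  set S := (EP H).filter (fun σ => (reps σ).card ≤ t1 ∧ ¬ t < (longReps σ).card) with hS
  set K : Finset (Σ _ : Finset W × Finset W, W → W) :=
    (Finset.univ.filter (fun R : Finset W × Finset W => R.2.card ≤ t1)).sigma
      (fun R => Fintype.piFinset (fun v => if v ∈ R.2 then H.neighborFinset v else {v})) with hK
  have hKcard : K.card ≤ 4 ^ Fintype.card W * D ^ t1 := by
    rw [hK, Finset.card_sigma]
    have h1 : ∀ R ∈ (Finset.univ.filter (fun R : Finset W × Finset W => R.2.card ≤ t1)),
        (Fintype.piFinset (fun v => if v ∈ R.2 then H.neighborFinset v else {v})).card ≤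
          D ^ t1 := by
      intro R hR
      rw [Finset.mem_filter] at hR
      rw [Fintype.card_piFinset]
      have h2 : ∀ v ∈ (Finset.univ : Finset W),
          (if v ∈ R.2 then H.neighborFinset v else ({v} : Finset W)).card
          ≤ if v ∈ R.2 then D else 1 := by
        intro v _
        by_cases hv : v ∈ R.2
        · rw [if_pos hv, if_pos hv, card_neighborFinset_eq_degree]; exact hD v
        · rw [if_neg hv, if_neg hv, Finset.card_singleton]
      refine (Finset.prod_le_prod' h2).trans ?_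
      rw [Finset.prod_ite, Finset.prod_const_one, mul_one, Finset.prod_const]
      have h3 : (Finset.univ.filter (fun v => v ∈ R.2)) = R.2 := by ext v; simp
      rw [h3]
      exact Nat.pow_le_pow_right hD1 hR.2
    refine (Finset.sum_le_card_nsmul _ _ _ h1).trans ?_
    rw [smul_eq_mul]
    apply Nat.mul_le_mul_right
    refine (Finset.card_le_univ _).trans ?_
    rw [Fintype.card_prod, Fintype.card_finset, ← mul_pow]
    exact le_of_eq (by norm_num)
  have hmaps : ∀ σ ∈ S, pkey σ ∈ K := by
    intro σ hσ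
    rw [hS, Finset.mem_filter] at hσ
    rw [hK, Finset.mem_sigma, Finset.mem_filter, Fintype.mem_piFinset]
    refine ⟨⟨Finset.mem_univ _, hσ.2.1⟩, ?_⟩
    intro v
    show clo σ v ∈ (if v ∈ reps σ then H.neighborFinset v else {v})
    by_cases hv : v ∈ reps σ
    · rw [if_pos hv, clo_of_mem hv, mem_neighborFinset]
      have := (mem_EP.1 hσ.1) (σ.symm v)
      rw [Equiv.apply_symm_apply] at this
      exact this.symm
    · rw [if_neg hv, clo_of_not hv, Finset.mem_singleton]
  have hKne : K.Nonempty := by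
    refine ⟨⟨(∅, ∅), id⟩, ?_⟩
    rw [hK, Finset.mem_sigma, Finset.mem_filter, Fintype.mem_piFinset]
    refine ⟨⟨Finset.mem_univ _, by simp⟩, ?_⟩
    intro v; simp
  obtain ⟨b0, hb, hmax⟩ := Finset.exists_max_image K
    (fun b => (S.filter (fun σ => pkey σ = b)).card) hKne
  have h1 := Finset.card_le_mul_card_image_of_maps_to (f := pkey) (s := S) hmaps
    ((S.filter (fun σ => pkey σ = b0)).card) (fun b hb' => hmax b hb')
  refine ⟨b0, ?_⟩
  refine h1.trans ?_
  apply Nat.mul_le_mul _ hKcard
  apply Finset.card_le_card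
  intro σ hσ
  rw [Finset.mem_filter, hS, Finset.mem_filter] at hσ
  rw [Finset.mem_filter]
  exact ⟨hσ.1.1, hσ.1.2.2, hσ.2⟩

open scoped Classical in
/-- The restriction of a permutation to the complement of `Z`. -/
noncomputable def restr (Z : Finset W) (σ : Equiv.Perm W) : Equiv.Perm {v : W // v ∉ Z} :=
  if h : ∀ x, σ x ∉ Z ↔ x ∉ Z then σ.subtypePerm h else 1

lemma restr_eq {Z : Finset W} {σ : Equiv.Perm W} (h : ∀ x, σ x ∉ Z ↔ x ∉ Z) :
    restr Z σ = σ.subtypePerm h := by
  unfold restr
  rw [dif_pos h]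

lemma inv_Z2 {σ : Equiv.Perm W} {Z : Finset W} (hZ : Z2 σ = Z) (x : W) : σ x ∉ Z ↔ x ∉ Z := by
  subst hZ
  exact not_congr (Z2_same (⟨1, by rw [zpow_one]⟩ : σ.SameCycle x (σ x))).symm

open scoped Classical in
lemma gadget_of_pattern (H : SimpleGraph W) {g t : ℕ} (hH : NoShort H g)
    (b : Σ _ : Finset W × Finset W, W → W) :
    HasGadget g (Fintype.card W + g * t)
      ((EP H).filter (fun σ => ¬ t < (longReps σ).card ∧ pkey σ = b)).card := by
  obtain ⟨⟨Z, R⟩, s⟩ := b
  set F0 := (EP H).filter (fun σ => ¬ t < (longReps σ).card ∧ pkey σ = ⟨(Z, R), s⟩) with hF0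
  have hmem : ∀ σ ∈ F0, σ ∈ EP H ∧ (longReps σ).card ≤ t ∧ Z2 σ = Z ∧ reps σ = R ∧ clo σ = s := by
    intro σ hσ
    rw [hF0, Finset.mem_filter] at hσ
    obtain ⟨h1, h2, h3⟩ := hσ
    unfold pkey at h3
    simp only [Sigma.mk.injEq, Prod.mk.injEq, heq_eq_eq] at h3
    exact ⟨h1, by omega, h3.1.1, h3.1.2, h3.2⟩
  by_cases hne : F0.Nonempty
  · obtain ⟨σ0, h0⟩ := hne
    refine ⟨{v : W // v ∉ Z}, inferInstance, H.comap Subtype.val,
      Finset.univ.filter (fun v : {v : W // v ∉ Z} => v.1 ∈ R),
      (fun v => if h : s v.1 ∉ Z then ⟨s v.1, h⟩ else v), ?_, ?_, F0.image (restr Z), ?_, ?_⟩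
    · exact hH.comap Subtype.val Subtype.val_injective (fun _ _ h => h)
    · have h1 : Fintype.card {v : W // v ∉ Z} ≤ Fintype.card W := Fintype.card_subtype_le _
      have h2 : (Finset.univ.filter (fun v : {v : W // v ∉ Z} => v.1 ∈ R)).card ≤ t := by
        obtain ⟨_, h4, h5, h6, _⟩ := hmem σ0 h0
        refine le_trans ?_ h4
        apply Finset.card_le_card_of_injOn Subtype.val
        · rintro ⟨v, hv⟩ hvR
          rw [Finset.mem_coe, Finset.mem_filter] at hvR
          rw [Finset.mem_coe, mem_longReps, h5, h6]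
          exact ⟨hvR.2, hv⟩
        · exact Subtype.val_injective.injOn
      exact Nat.add_le_add h1 (Nat.mul_le_mul_left _ h2)
    · rw [Finset.card_image_of_injOn]
      intro σ hσ τ hτ hst
      rw [Finset.mem_coe] at hσ hτ
      obtain ⟨a1, a2, a3, a4, a5⟩ := hmem σ hσ
      obtain ⟨b1, b2, b3, b4, b5⟩ := hmem τ hτ
      have hZZ : ∀ v ∈ Z2 σ, σ v = τ v := by
        apply agree_Z2 (a3.trans b3.symm)
        intro v hv hvr
        have h1 : clo σ v = clo τ v := by rw [a5, b5]
        have hvr' : v ∈ reps τ := by rw [b4, ← a4]; exact hvr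
        rw [clo_of_mem hvr, clo_of_mem hvr'] at h1
        have hv' : v ∈ Z2 τ := by rw [b3, ← a3]; exact hv
        have e1 : σ.symm v = σ v := by
          rw [Equiv.symm_apply_eq]; exact (mem_Z2.1 hv).symm
        have e2 : τ.symm v = τ v := by
          rw [Equiv.symm_apply_eq]; exact (mem_Z2.1 hv').symm
        rw [e1, e2] at h1
        exact h1
      ext v
      by_cases hv : v ∈ Z2 σ
      · exact hZZ v hv
      · rw [restr_eq (inv_Z2 a3), restr_eq (inv_Z2 b3)] at hst
        have hv' : v ∉ Z := by rw [← a3]; exact hv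
        have h1 := congrArg (fun π : Equiv.Perm {v : W // v ∉ Z} => (π ⟨v, hv'⟩).1) hst
        simpa using h1
    · intro π hπ
      rw [Finset.mem_image] at hπ
      obtain ⟨σ, hσ, rfl⟩ := hπ
      obtain ⟨a1, a2, a3, a4, a5⟩ := hmem σ hσ
      have hgood := good_of_mem a1
      rw [restr_eq (inv_Z2 a3)]
      refine ⟨?_, ?_, ?_, ?_⟩
      · intro v
        exact (mem_EP.1 a1) v.1
      · rintro ⟨r, hr⟩ hrR
        rw [Finset.mem_filter] at hrR
        have hrR' : r ∈ reps σ := by rw [a4]; exact hrR.2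
        have h1 : s r = σ.symm r := by rw [← a5, clo_of_mem hrR']
        have h2 : s r ∉ Z := by
          rw [← inv_Z2 a3, h1, Equiv.apply_symm_apply]
          exact hr
        apply Subtype.ext
        simp only [Equiv.Perm.subtypePerm_apply]
        rw [dif_pos h2]
        simp only
        rw [h1, Equiv.apply_symm_apply]
      · rintro ⟨v, hv⟩
        have h1 : rep σ v ∉ Z := by
          rw [← a3] at hv ⊢
          exact fun h' => hv ((Z2_same (rep_same σ v)).1 h')
        refine ⟨⟨rep σ v, h1⟩, ?_, ?_⟩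
        · rw [Finset.mem_filter]
          refine ⟨Finset.mem_univ _, ?_⟩
          show rep σ v ∈ R
          rw [← a4]
          exact rep_mem σ v
        · rw [Equiv.Perm.sameCycle_subtypePerm]
          exact rep_same σ v
      · rintro ⟨r, hr⟩ hrR ⟨r', hr'⟩ hrR' hsame
        rw [Finset.mem_filter] at hrR hrR'
        rw [Equiv.Perm.sameCycle_subtypePerm] at hsame
        apply Subtype.ext
        exact reps_uniq (a4 ▸ hrR.2) (a4 ▸ hrR'.2) hsame
  · rw [Finset.not_nonempty_iff_eq_empty] at hne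
    rw [hne, Finset.card_empty]
    exact (hasGadget_zero g).mono (Nat.zero_le _) (Nat.zero_le _)

open scoped Classical in
/-- The combinatorial core. -/
lemma gadget2 (H : SimpleGraph W) {g k D t t1 : ℕ} (hH : NoShort H g) (hk : 1 ≤ k)
    (hg : 2 * k + 1 ≤ g) (hD1 : 1 ≤ D) (hD : ∀ v, H.degree v ≤ D) :
    ∃ L XA XB : ℕ, HasGadget g (Fintype.card W + g * t) L ∧
      XA * D ^ t1 ≤ 4 ^ Fintype.card W * D ^ Fintype.card W ∧
      XB * D ^ (k * (t + 1)) ≤ 8 ^ Fintype.card W * D ^ (t1 + Fintype.card W) ∧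
      (EP H).card ≤ XA + XB + L * (4 ^ Fintype.card W * D ^ t1) := by
  obtain ⟨b, hb⟩ := exists_pattern2 H (t := t) (t1 := t1) hD1 hD
  refine ⟨_, _, _, gadget_of_pattern H (t := t) hH b, card_many_reps_mul H (t := t1) hD1 hD,
    card_long H (t := t) (t1 := t1) hH hk hg hD1 hD, ?_⟩
  have h1 := Finset.card_filter_add_card_filter_not (s := EP H) (fun σ => t1 < (reps σ).card)
  have h2 := Finset.card_filter_add_card_filter_not
    (s := (EP H).filter (fun σ => ¬ t1 < (reps σ).card)) (fun σ => t < (longReps σ).card)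
  rw [Finset.filter_filter, Finset.filter_filter] at h2
  have e1 : (EP H).filter (fun σ => ¬ t1 < (reps σ).card ∧ t < (longReps σ).card) =
      (EP H).filter (fun σ => (reps σ).card ≤ t1 ∧ t < (longReps σ).card) := by
    apply Finset.filter_congr
    intro σ _
    rw [not_lt]
  have e2 : (EP H).filter (fun σ => ¬ t1 < (reps σ).card ∧ ¬ t < (longReps σ).card) =
      (EP H).filter (fun σ => (reps σ).card ≤ t1 ∧ ¬ t < (longReps σ).card) := by
    apply Finset.filter_congr
    intro σ _
    rw [not_lt]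
  rw [e1, e2] at h2
  omega

end

end Pool.Agent.Helper33.EB
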