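import Pool.Agent.Helper72.Cyc.Perms
import Pool.Agent.Helper72.Cyc.Moore
import Pool.Agent.Helper72.Cyc.Bip

/-!
# Splitting the vertices of a graph: bounded degrees, same edges, no new short cycles
-/

set_option linter.unusedSectionVars false

namespace Pool.Agent.Helper33.EB

open SimpleGraph Finset Pool.Agent.Helper72.Cyc

section

variable {V : Type} [Fintype V] [DecidableEq V] (G : SimpleGraph V) [DecidableRel G.Adj] (D : ℕ)

/-- The index of `w` among the neighbours of `v`. -/
noncomputable def idx (v w : V) : ℕ :=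
  if h : w ∈ G.neighborFinset v then ((G.neighborFinset v).equivFin ⟨w, h⟩ : ℕ) else 0

lemma idx_lt {v w : V} (h : G.Adj v w) : idx G v w < G.degree v := by
  have h' : w ∈ G.neighborFinset v := by rwa [mem_neighborFinset]
  unfold idx
  rw [dif_pos h']
  exact ((G.neighborFinset v).equivFin ⟨w, h'⟩).2

lemma idx_inj {v w w' : V} (h : G.Adj v w) (h' : G.Adj v w') (he : idx G v w = idx G v w') :
    w = w' := by
  have h1 : w ∈ G.neighborFinset v := by rwa [mem_neighborFinset]
  have h2 : w' ∈ G.neighborFinset v := by rwa [mem_neighborFinset]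
  unfold idx at he
  rw [dif_pos h1, dif_pos h2] at he
  have := (G.neighborFinset v).equivFin.injective (Fin.ext he)
  exact congrArg Subtype.val this

/-- The graph in which the vertex `v` is split into `deg v / D + 1` vertices. -/
def splitGraph : SimpleGraph (Σ v : V, Fin (G.degree v / D + 1)) where
  Adj x y := G.Adj x.1 y.1 ∧ idx G x.1 y.1 / D = x.2.val ∧ idx G y.1 x.1 / D = y.2.val
  symm := ⟨fun _ _ h => ⟨h.1.symm, h.2.2, h.2.1⟩⟩
  loopless := ⟨fun _ h => G.irrefl h.1⟩

lemma splitGraph_adj {x y : Σ v : V, Fin (G.degree v / D + 1)} :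
    (splitGraph G D).Adj x y ↔
      G.Adj x.1 y.1 ∧ idx G x.1 y.1 / D = x.2.val ∧ idx G y.1 x.1 / D = y.2.val := Iff.rfl

open scoped Classical in
lemma degree_splitGraph (hD : 1 ≤ D) (x : Σ v : V, Fin (G.degree v / D + 1)) :
    (splitGraph G D).degree x ≤ D := by
  rw [← card_neighborFinset_eq_degree]
  have h1 : ((splitGraph G D).neighborFinset x).card ≤
      (Finset.Ico (x.2.val * D) (x.2.val * D + D)).card := by
    apply Finset.card_le_card_of_injOn (fun y => idx G x.1 y.1)
    · intro y hy
      rw [Finset.mem_coe, mem_neighborFinset, splitGraph_adj] at hy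
      rw [Finset.mem_coe, Finset.mem_Ico]
      have h2 := Nat.div_add_mod (idx G x.1 y.1) D
      have h3 := Nat.mod_lt (idx G x.1 y.1) hD
      rw [hy.2.1, Nat.mul_comm] at h2
      show x.2.val * D ≤ idx G x.1 y.1 ∧ idx G x.1 y.1 < x.2.val * D + D
      constructor
      · omega
      · omega
    · intro y hy y' hy' he
      rw [Finset.mem_coe, mem_neighborFinset, splitGraph_adj] at hy hy'
      simp only at he
      have h4 := idx_inj G hy.1 hy'.1 he
      obtain ⟨w, i⟩ := y
      obtain ⟨w', i'⟩ := y'
      simp only at h4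
      subst h4
      have h5 : i = i' := Fin.ext (hy.2.2.symm.trans hy'.2.2)
      rw [h5]
  refine h1.trans ?_
  rw [Nat.card_Ico]
  omega

lemma card_splitVerts :
    Fintype.card (Σ v : V, Fin (G.degree v / D + 1)) * D ≤
      Fintype.card V * D + 2 * G.edgeFinset.card := by
  rw [Fintype.card_sigma, ← G.sum_degrees_eq_twice_card_edges, Finset.sum_mul]
  have h1 : ∀ v ∈ (Finset.univ : Finset V), Fintype.card (Fin (G.degree v / D + 1)) * D ≤
      D + G.degree v := by
    intro v _
    rw [Fintype.card_fin, Nat.add_mul, one_mul]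
    have := Nat.div_mul_le_self (G.degree v) D
    omega
  refine (Finset.sum_le_sum h1).trans ?_
  rw [Finset.sum_add_distrib, Finset.sum_const, Finset.card_univ, smul_eq_mul]

open scoped Classical in
lemma card_edges_splitGraph :
    G.edgeFinset.card ≤ (splitGraph G D).edgeFinset.card := by
  have hidx : ∀ v w, idx G v w / D < G.degree v / D + 1 := by
    intro v w
    by_cases h : G.Adj v w
    · have := idx_lt G h
      have h2 := Nat.div_le_div_right (c := D) this.le
      omega
    · have h' : w ∉ G.neighborFinset v := by rwa [mem_neighborFinset]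
      unfold idx
      rw [dif_neg h', Nat.zero_div]
      exact Nat.succ_pos _
  have h1 : (darts2 G).card ≤ (darts2 (splitGraph G D)).card := by
    apply Finset.card_le_card_of_injOn (fun p : V × V =>
      ((⟨p.1, ⟨idx G p.1 p.2 / D, hidx _ _⟩⟩, ⟨p.2, ⟨idx G p.2 p.1 / D, hidx _ _⟩⟩) :
        (Σ v : V, Fin (G.degree v / D + 1)) × (Σ v : V, Fin (G.degree v / D + 1))))
    · rintro ⟨v, w⟩ hp
      have hadj : G.Adj v w := by simpa [darts2] using hp
      simp only [darts2, Finset.coe_filter, Finset.mem_univ, true_and, Set.mem_ofPred_eq]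
      rw [splitGraph_adj]
      exact ⟨hadj, rfl, rfl⟩
    · rintro ⟨v, w⟩ _ ⟨v', w'⟩ _ he
      simp only [Prod.mk.injEq] at he
      have h2 := congrArg Sigma.fst he.1
      have h3 := congrArg Sigma.fst he.2
      simp only at h2 h3
      rw [h2, h3]
  rw [card_darts2, card_darts2] at h1
  omega

lemma noShort_splitGraph {g : ℕ} (hG : NoShort G g) : NoShort (splitGraph G D) g := by
  intro m f hf hadj
  have hadj' : ∀ j, (splitGraph G D).Adj (f (cc m j)) (f (cc m (j + 1))) := by
    intro j
    rw [cc_succ]
    exact hadj (cc m j)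
  refine nb_repeat hG (u := fun j => (f (cc m j)).1) (l := m + 3) ?_ ?_ (i := 0) (j := m + 3)
    (by omega) le_rfl ?_
  · intro j _
    exact (hadj' j).1
  · intro j _ he
    have h1 := hadj' j
    have h2 := hadj' (j + 1)
    rw [splitGraph_adj] at h1 h2
    have h3 : f (cc m (j + 2)) = f (cc m j) := by
      have e1 : j + 1 + 1 = j + 2 := rfl
      rw [e1] at h2
      obtain ⟨_, h1a, _⟩ := h1
      obtain ⟨_, _, h2b⟩ := h2
      generalize f (cc m (j + 2)) = x at he h2b
      generalize f (cc m j) = y at he h1a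
      obtain ⟨w, i⟩ := x
      obtain ⟨w', i'⟩ := y
      simp only at he
      subst he
      simp only at h1a h2b
      have : i = i' := Fin.ext (h2b.symm.trans h1a)
      rw [this]
    have h4 := hf h3
    have h5 : (j + 2) % (m + 3) = j % (m + 3) := congrArg Fin.val h4
    have h6 : (j + 2) ≡ j [MOD (m + 3)] := h5
    have h7 : m + 3 ∣ (j + 2) - j := (Nat.modEq_iff_dvd' (by omega)).1 h6.symm
    have h8 : (j + 2) - j = 2 := by omega
    rw [h8] at h7
    have := Nat.le_of_dvd (by norm_num) h7
    omega
  · rw [cc_self, cc_zero]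

end

end Pool.Agent.Helper33.EB
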