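import Pool.Agent.Helper33.EB.Split
import Pool.Agent.Helper33.EB.Gad
import Pool.Agent.Helper33.EB.Cyc
import Pool.Agent.Helper72.Cyc.Main

/-!
# The number of cycles and the number of edges, uniformly in the girth
-/

set_option linter.unusedSectionVars false

namespace Pool.Agent.Helper33.EB

open SimpleGraph Finset Pool.Agent.Helper72.Cyc

lemma step1 {n g k l r t t1 : ℕ} (hk : 1 ≤ k) (hg : 2 * k + 1 ≤ g) (hr1 : 1 ≤ r)
    (hr : 2 * r ≤ n) (he1 : 2 * n * 2 ^ l ≤ maxEdges n g) (he2 : maxEdges n g ≤ 4 * n * 2 ^ l) :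
    ∃ L XA XB : ℕ, HasGadget g (2 * r + g * t) L ∧
      XA * (2 ^ l) ^ t1 ≤ 4 ^ (2 * r) * (2 ^ l) ^ (2 * r) ∧
      XB * (2 ^ l) ^ (k * (t + 1)) ≤ 8 ^ (2 * r) * (2 ^ l) ^ (t1 + 2 * r) ∧
      (2 ^ l) ^ (2 * r) ≤ 4 ^ (18 * n) * (XA + XB + L * (4 ^ (2 * r) * (2 ^ l) ^ t1)) := by
  classical
  set D := 2 ^ l with hDdef
  have hD1 : 1 ≤ D := Nat.one_le_two_pow
  obtain ⟨G, hG, hcard⟩ := exists_maxEdges n g
  have hV : Fintype.card (Σ v : Fin n, Fin (G.degree v / D + 1)) ≤ 9 * n := by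
    have h1 := card_splitVerts G D
    rw [hcard, Fintype.card_fin] at h1
    have h2 : Fintype.card (Σ v : Fin n, Fin (G.degree v / D + 1)) * D ≤ 9 * n * D := by
      refine h1.trans ?_
      calc n * D + 2 * maxEdges n g ≤ n * D + 2 * (4 * n * D) := by omega
        _ = 9 * n * D := by ring
    exact Nat.le_of_mul_le_mul_right h2 hD1
  have hE := card_edges_splitGraph G D
  rw [hcard] at hE
  have hr4 : 4 * r * D ≤ (splitGraph G D).edgeFinset.card := by
    refine le_trans ?_ hE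
    refine le_trans ?_ he1
    apply Nat.mul_le_mul_right
    omega
  have hepos : 0 < (splitGraph G D).edgeFinset.card := by
    have : 0 < 4 * r * D := by positivity
    omega
  have hdeg := degree_splitGraph G D hD1
  obtain ⟨A, B, hA, hB, hAB, hM⟩ := exists_AB (splitGraph G D) hdeg hr4 hepos
  have hWcard : Fintype.card (A ⊕ B) = 2 * r := by
    rw [Fintype.card_sum, Fintype.card_coe, Fintype.card_coe, hA, hB]; ring
  obtain ⟨L, XA, XB, hL, hXA, hXB, hEP⟩ := gadget2 (biGraph (splitGraph G D) A B) (g := g)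
    (k := k) (D := D) (t := t) (t1 := t1)
    (noShort_biGraph _ hAB (noShort_splitGraph G D hG)) hk hg hD1
    (fun v => degree_biGraph _ hAB hdeg v)
  rw [hWcard] at hL hXA hXB hEP
  refine ⟨L, XA, XB, hL, hXA, hXB, ?_⟩
  have hEP2 := card_EP_ge (splitGraph G D) A B
  set X := (Mt (splitGraph G D) A B).card with hX
  have hrr : 0 < r ^ r := by positivity
  have h1 : D ^ r ≤ 4 ^ (9 * n) * X := by
    have h2 : (r * D) ^ r ≤ 4 ^ (9 * n) * (X * r ^ r) := by
      calc (r * D) ^ r ≤ (splitGraph G D).edgeFinset.card ^ r := by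
            apply Nat.pow_le_pow_left
            refine le_trans ?_ hr4
            apply Nat.mul_le_mul_right
            omega
        _ ≤ _ := hM
        _ ≤ 4 ^ (9 * n) * (X * r ^ r) := by
            apply Nat.mul_le_mul_right
            exact Nat.pow_le_pow_right (by norm_num) hV
    rw [mul_pow, mul_comm (r ^ r), ← mul_assoc] at h2
    exact Nat.le_of_mul_le_mul_right h2 hrr
  calc D ^ (2 * r) = D ^ r * D ^ r := by rw [two_mul, pow_add]
    _ ≤ (4 ^ (9 * n) * X) * (4 ^ (9 * n) * X) := Nat.mul_le_mul h1 h1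
    _ = 4 ^ (18 * n) * (X * X) := by
        rw [show 18 * n = 9 * n + 9 * n by ring, pow_add]; ring
    _ ≤ 4 ^ (18 * n) * (XA + XB + L * (4 ^ (2 * r) * D ^ t1)) :=
        Nat.mul_le_mul_left _ (hEP2.trans hEP)

lemma step2 {n l r t1 kt g t : ℕ} (hr : 2 * r ≤ n) (hl : l ≤ n) (hn : 1 ≤ n)
    (ht1 : 38 * n + 2 ≤ l * t1) (ht1' : l * t1 ≤ 38 * n + 2 + l)
    (hkt : 77 * n + 4 + l ≤ l * kt) (hgt : l * (g * t) ≤ 308 * n + 16 + 8 * l)
    (hrn : n ≤ 2 * r + g * t + 1) {L XA XB : ℕ}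
    (hXA : XA * (2 ^ l) ^ t1 ≤ 4 ^ (2 * r) * (2 ^ l) ^ (2 * r))
    (hXB : XB * (2 ^ l) ^ kt ≤ 8 ^ (2 * r) * (2 ^ l) ^ (t1 + 2 * r))
    (hsum : (2 ^ l) ^ (2 * r) ≤ 4 ^ (18 * n) * (XA + XB + L * (4 ^ (2 * r) * (2 ^ l) ^ t1))) :
    2 ^ (l * n) ≤ L * 2 ^ (413 * n) := by
  have e4 : ∀ j : ℕ, (4 : ℕ) ^ j = 2 ^ (2 * j) := by
    intro j; rw [show (4 : ℕ) = 2 ^ 2 by norm_num, ← pow_mul]
  have e8 : ∀ j : ℕ, (8 : ℕ) ^ j = 2 ^ (3 * j) := by
    intro j; rw [show (8 : ℕ) = 2 ^ 3 by norm_num, ← pow_mul]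
  rw [e4, ← pow_mul, ← pow_mul, ← pow_add] at hXA
  rw [e8, ← pow_mul, ← pow_mul, ← pow_add] at hXB
  rw [e4, e4, ← pow_mul, ← pow_mul, ← pow_add] at hsum
  have hA : XA * 2 ^ (36 * n + 2) ≤ 2 ^ (l * (2 * r)) := by
    have h1 : XA * 2 ^ (36 * n + 2) * 2 ^ (2 * (2 * r)) ≤ 2 ^ (l * (2 * r)) * 2 ^ (2 * (2 * r)) := by
      calc XA * 2 ^ (36 * n + 2) * 2 ^ (2 * (2 * r))
          = XA * 2 ^ (36 * n + 2 + 2 * (2 * r)) := by rw [mul_assoc, ← pow_add]
        _ ≤ XA * 2 ^ (l * t1) := by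
            apply Nat.mul_le_mul_left
            apply Nat.pow_le_pow_right (by norm_num)
            omega
        _ ≤ 2 ^ (2 * (2 * r) + l * (2 * r)) := hXA
        _ = _ := by rw [← pow_add, add_comm]
    exact Nat.le_of_mul_le_mul_right h1 (by positivity)
  have hB : XB * 2 ^ (36 * n + 2) ≤ 2 ^ (l * (2 * r)) := by
    have h1 : XB * 2 ^ (36 * n + 2) * 2 ^ (3 * (2 * r) + l * t1) ≤
        2 ^ (l * (2 * r)) * 2 ^ (3 * (2 * r) + l * t1) := by
      calc XB * 2 ^ (36 * n + 2) * 2 ^ (3 * (2 * r) + l * t1)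
          = XB * 2 ^ (36 * n + 2 + (3 * (2 * r) + l * t1)) := by rw [mul_assoc, ← pow_add]
        _ ≤ XB * 2 ^ (l * kt) := by
            apply Nat.mul_le_mul_left
            apply Nat.pow_le_pow_right (by norm_num)
            omega
        _ ≤ 2 ^ (3 * (2 * r) + l * (t1 + 2 * r)) := hXB
        _ = _ := by rw [← pow_add]; congr 1; ring
    exact Nat.le_of_mul_le_mul_right h1 (by positivity)
  have hC : 2 ^ (l * (2 * r)) ≤ L * 2 ^ (76 * n + 3 + l) := by
    have h1 : 4 * 2 ^ (l * (2 * r)) ≤ XA * 2 ^ (36 * n + 2) + XB * 2 ^ (36 * n + 2) +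
        L * 2 ^ (36 * n + 2 + (2 * (2 * r) + l * t1)) := by
      calc 4 * 2 ^ (l * (2 * r)) ≤ 4 * (2 ^ (2 * (18 * n)) *
            (XA + XB + L * 2 ^ (2 * (2 * r) + l * t1))) := Nat.mul_le_mul_left _ hsum
        _ = _ := by
            rw [pow_add 2 (36 * n + 2), pow_add 2 (36 * n) 2,
              show 2 * (18 * n) = 36 * n by ring]
            ring
    have h2 : 2 * 2 ^ (l * (2 * r)) ≤ L * 2 ^ (36 * n + 2 + (2 * (2 * r) + l * t1)) := by omega
    have h3 : L * 2 ^ (36 * n + 2 + (2 * (2 * r) + l * t1)) ≤ L * 2 ^ (76 * n + 4 + l) := by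
      apply Nat.mul_le_mul_left
      apply Nat.pow_le_pow_right (by norm_num)
      omega
    have h4 : L * 2 ^ (76 * n + 4 + l) = 2 * (L * 2 ^ (76 * n + 3 + l)) := by
      rw [show 76 * n + 4 + l = 76 * n + 3 + l + 1 by ring, pow_succ]; ring
    omega
  calc 2 ^ (l * n) ≤ 2 ^ (l * (2 * r) + (308 * n + 16 + 9 * l)) := by
        apply Nat.pow_le_pow_right (by norm_num)
        calc l * n ≤ l * (2 * r + g * t + 1) := Nat.mul_le_mul_left _ hrn
          _ = l * (2 * r) + l * (g * t) + l := by ring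
          _ ≤ _ := by omega
    _ = 2 ^ (l * (2 * r)) * 2 ^ (308 * n + 16 + 9 * l) := by rw [pow_add]
    _ ≤ (L * 2 ^ (76 * n + 3 + l)) * 2 ^ (308 * n + 16 + 9 * l) := Nat.mul_le_mul_right _ hC
    _ = L * 2 ^ (76 * n + 3 + l + (308 * n + 16 + 9 * l)) := by rw [mul_assoc, ← pow_add]
    _ ≤ L * 2 ^ (413 * n) := by
        apply Nat.mul_le_mul_left
        apply Nat.pow_le_pow_right (by norm_num)
        omega

/-- The lower bound for large density. -/
lemma lower_dense {n g l : ℕ} (hg : 3 ≤ g) (hl : 500 ≤ l)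
    (he1 : 2 * n * 2 ^ l ≤ maxEdges n g) (he2 : maxEdges n g ≤ 4 * n * 2 ^ l) (hn : 1 ≤ n) :
    2 ^ (l * n) ≤ maxCycles n g * 2 ^ (413 * n) := by
  have hln : l ≤ n := by
    have h1 := maxEdges_le g n
    have h2 : 2 * 2 ^ l * n ≤ n * n := by
      calc 2 * 2 ^ l * n = 2 * n * 2 ^ l := by ring
        _ ≤ _ := he1.trans h1
    have h3 := Nat.le_of_mul_le_mul_right h2 hn
    have h4 : l < 2 ^ l := Nat.lt_two_pow_self
    omega
  obtain ⟨k, hk1, hk2, hk3⟩ : ∃ k, 1 ≤ k ∧ 2 * k + 1 ≤ g ∧ g ≤ 4 * k :=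
    ⟨(g - 1) / 2, by omega, by omega, by omega⟩
  have hlpos : 0 < l := by omega
  obtain ⟨t1, ht1, ht1'⟩ : ∃ t1, 38 * n + 2 ≤ l * t1 ∧ l * t1 ≤ 38 * n + 2 + l := by
    refine ⟨(38 * n + 2) / l + 1, ?_, ?_⟩
    · have h1 := Nat.div_add_mod (38 * n + 2) l
      have h2 := Nat.mod_lt (38 * n + 2) hlpos
      rw [mul_add, mul_one]
      omega
    · have h1 := Nat.mul_div_le (38 * n + 2) l
      rw [mul_add, mul_one]
      omega
  obtain ⟨q, hq, hq'⟩ : ∃ q, 77 * n + 4 + l ≤ l * q ∧ l * q ≤ 77 * n + 4 + 2 * l := by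
    refine ⟨(77 * n + 4) / l + 2, ?_, ?_⟩
    · have h1 := Nat.div_add_mod (77 * n + 4) l
      have h2 := Nat.mod_lt (77 * n + 4) hlpos
      rw [mul_add, mul_two]
      omega
    · have h1 := Nat.mul_div_le (77 * n + 4) l
      rw [mul_add, mul_two]
      omega
  obtain ⟨t, ht, ht'⟩ : ∃ t, q ≤ k * (t + 1) ∧ k * t ≤ q := by
    refine ⟨q / k, ?_, Nat.mul_div_le q k⟩
    have h1 := Nat.div_add_mod q k
    have h2 := Nat.mod_lt q hk1
    rw [mul_add, mul_one]
    omega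
  have hgt : l * (g * t) ≤ 308 * n + 16 + 8 * l := by
    calc l * (g * t) ≤ l * (4 * k * t) :=
          Nat.mul_le_mul_left _ (Nat.mul_le_mul_right _ hk3)
      _ = 4 * (l * (k * t)) := by ring
      _ ≤ 4 * (l * q) := Nat.mul_le_mul_left _ (Nat.mul_le_mul_left _ ht')
      _ ≤ _ := by omega
  have hkt : 77 * n + 4 + l ≤ l * (k * (t + 1)) := hq.trans (Nat.mul_le_mul_left _ ht)
  have hgtn : g * t + 2 ≤ n := by
    by_contra hcon
    push Not at hcon
    have h1 : n ≤ g * t + 1 := by omega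
    have h2 : l * n ≤ l * (g * t) + l := by
      calc l * n ≤ l * (g * t + 1) := Nat.mul_le_mul_left _ h1
        _ = _ := by ring
    obtain ⟨c, rfl⟩ : ∃ c, l = 500 + c := ⟨l - 500, by omega⟩
    have h3 : c * 9 ≤ c * n := Nat.mul_le_mul_left _ (by omega)
    have h4 : (500 + c) * n = 500 * n + c * n := by ring
    omega
  obtain ⟨r, hr1, hr2, hr3⟩ : ∃ r, 1 ≤ r ∧ 2 * r + g * t ≤ n ∧ n ≤ 2 * r + g * t + 1 :=
    ⟨(n - g * t) / 2, by omega, by omega, by omega⟩
  obtain ⟨L, XA, XB, hL, hXA, hXB, hsum⟩ := step1 (t := t) (t1 := t1) hk1 hk2 hr1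
    (by omega) he1 he2
  have hfin := step2 (by omega) hln hn ht1 ht1' hkt hgt hr3 hXA hXB hsum
  have hL2 : 2 ≤ L := by
    by_contra hcon
    push Not at hcon
    have h1 : L * 2 ^ (413 * n) ≤ 1 * 2 ^ (413 * n) := Nat.mul_le_mul_right _ (by omega)
    have h2 : 2 ^ (413 * n) < 2 ^ (l * n) := by
      apply Nat.pow_lt_pow_right (by norm_num)
      exact Nat.mul_lt_mul_of_pos_right (by omega) hn
    omega
  have hmax := (hL.mono hr2 le_rfl).le_maxCycles hg hL2
  exact hfin.trans (Nat.mul_le_mul_right _ hmax)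

/-- The main theorem: the number of cycles is of order `(c * edges / n) ^ n`, uniformly. -/
theorem thmU : ∃ a : ℝ, 0 < a ∧ ∀ n g : ℕ, 3 ≤ g → g ≤ n →
    (a * maxEdges n g / n) ^ n ≤ maxCycles n g ∧
      (maxCycles n g : ℝ) ≤ (3 * maxEdges n g / n) ^ n := by
  obtain ⟨p, hp⟩ : ∃ p : ℕ, p = 500 := ⟨500, rfl⟩
  obtain ⟨q, hq⟩ : ∃ q : ℕ, q = 600 := ⟨600, rfl⟩
  obtain ⟨s, hs⟩ : ∃ s : ℕ, s = 413 := ⟨413, rfl⟩
  refine ⟨1 / 2 ^ q, by positivity, ?_⟩
  intro n g hg hgn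
  have hn : 1 ≤ n := by omega
  have hnpos : (0 : ℝ) < n := by exact_mod_cast hn
  constructor
  · by_cases hcase : maxEdges n g < 2 * n * 2 ^ p
    · have h1 : (1 : ℝ) ≤ maxCycles n g := by exact_mod_cast one_le_maxCycles hg hgn
      refine le_trans ?_ h1
      apply pow_le_one₀ (by positivity)
      rw [div_le_one hnpos]
      have h2 : (maxEdges n g : ℝ) ≤ 2 * n * 2 ^ p := by exact_mod_cast hcase.le
      have h3 : (1 / 2 ^ q : ℝ) * maxEdges n g ≤ (1 / 2 ^ q) * (2 * n * 2 ^ p) :=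
        mul_le_mul_of_nonneg_left h2 (by positivity)
      refine h3.trans ?_
      have h4 : (1 / 2 ^ q : ℝ) * (2 * n * 2 ^ p) = (2 * 2 ^ p / 2 ^ q) * n := by ring
      rw [h4]
      have h5 : (2 * 2 ^ p / 2 ^ q : ℝ) ≤ 1 := by
        rw [div_le_one (by positivity), ← pow_succ']
        exact pow_le_pow_right₀ (by norm_num) (by omega)
      nlinarith
    · push Not at hcase
      have h2n : 0 < 2 * n := by omega
      have h1 : 2 ^ p ≤ maxEdges n g / (2 * n) := by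
        rw [Nat.le_div_iff_mul_le h2n, mul_comm]
        exact hcase
      have hne : maxEdges n g / (2 * n) ≠ 0 := by
        have : 0 < 2 ^ p := by positivity
        omega
      set l := Nat.log 2 (maxEdges n g / (2 * n)) with hl
      have hl1 : 2 ^ l ≤ maxEdges n g / (2 * n) := Nat.pow_log_le_self 2 hne
      have hl2 : maxEdges n g / (2 * n) < 2 ^ (l + 1) :=
        Nat.lt_pow_succ_log_self (by norm_num) _
      have hl500 : 500 ≤ l := hp ▸ Nat.le_log_of_pow_le (by norm_num) h1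
      have he1 : 2 * n * 2 ^ l ≤ maxEdges n g := by
        rw [Nat.le_div_iff_mul_le h2n, mul_comm] at hl1
        exact hl1
      have he2 : maxEdges n g ≤ 4 * n * 2 ^ l := by
        rw [Nat.div_lt_iff_lt_mul h2n] at hl2
        refine hl2.le.trans (le_of_eq ?_)
        rw [pow_succ]; ring
      have hmain := lower_dense hg hl500 he1 he2 hn
      rw [← hs] at hmain
      have hmain' : ((2 : ℝ) ^ l) ^ n ≤ maxCycles n g * (2 ^ s) ^ n := by
        rw [← pow_mul, ← pow_mul]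
        exact_mod_cast hmain
      have h6 : (1 / 2 ^ q : ℝ) * maxEdges n g / n ≤ 2 ^ l / 2 ^ s := by
        rw [div_le_iff₀ hnpos]
        have h7 : (maxEdges n g : ℝ) ≤ 4 * n * 2 ^ l := by exact_mod_cast he2
        have h8 : (1 / 2 ^ q : ℝ) * maxEdges n g ≤ (1 / 2 ^ q) * (4 * n * 2 ^ l) :=
          mul_le_mul_of_nonneg_left h7 (by positivity)
        refine h8.trans ?_
        have h9 : (1 / 2 ^ q : ℝ) * (4 * n * 2 ^ l) = (4 / 2 ^ q) * (2 ^ l * n) := by ring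
        have h10 : (2 : ℝ) ^ l / 2 ^ s * n = (1 / 2 ^ s) * (2 ^ l * n) := by ring
        rw [h9, h10]
        apply mul_le_mul_of_nonneg_right _ (by positivity)
        rw [div_le_div_iff₀ (by positivity) (by positivity)]
        have h11 : (4 : ℝ) * 2 ^ s = 2 ^ (s + 2) := by rw [pow_add]; ring
        rw [h11, one_mul]
        exact pow_le_pow_right₀ (by norm_num) (by omega)
      calc ((1 / 2 ^ q : ℝ) * maxEdges n g / n) ^ n ≤ (2 ^ l / 2 ^ s) ^ n := by
            apply pow_le_pow_left₀ (by positivity) h6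
        _ = (2 ^ l) ^ n / (2 ^ s) ^ n := by rw [div_pow]
        _ ≤ maxCycles n g := by
            rw [div_le_iff₀ (by positivity)]
            exact hmain'
  · have h1 := maxCycles_le g hn
    refine h1.trans ?_
    have h2 : (1 : ℝ) ≤ rho g n := by
      unfold rho
      rw [one_le_div hnpos]
      exact_mod_cast le_maxEdges_self hg hgn
    have h3 : (3 : ℝ) * maxEdges n g / n = 3 * rho g n := by
      unfold rho; ring
    rw [h3]
    apply pow_le_pow_left₀ (by linarith)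
    linarith

end Pool.Agent.Helper33.EB
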